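import Pool.Agent.MWGN.StmtsA

/-!
# MWGN, row NOA: literal form of the `W`-part (MP_23468a_al)
-/

namespace Pool.Agent.Helper34_MWGN

open Pool.Agent Pool.Agent.MWGN
open Pool.Agent.MWK (pre)

/-- all `c` are in front of all `d`, both occur -/
def Rl (l : List ℕ) (c d : ℕ) : Prop :=
  c ∈ l ∧ d ∈ l ∧ c ≠ d ∧ ∀ u v : List ℕ, l = u ++ v → d ∈ u → c ∉ v

theorem Rl.tr {l : List ℕ} {c z d : ℕ} (h1 : Rl l c z) (h2 : Rl l z d) : Rl l c d := by
  obtain ⟨hc, hz, hcz, h3⟩ := h1
  obtain ⟨-, hd, hzd, h4⟩ := h2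
  have h5 : ∀ u v : List ℕ, l = u ++ v → d ∈ u → c ∉ v := by
    intro u v e hu hv
    have h6 : z ∈ u ∨ z ∈ v := by
      rw [e, List.mem_append] at hz
      exact hz
    rcases h6 with h | h
    · exact h3 u v e h hv
    · exact h4 u v e hu h
  refine ⟨hc, hd, ?_, h5⟩
  intro e
  subst e
  rcases MWK.pre_total hc hcz with h | h
  · obtain ⟨B, hB⟩ := MWK.mem_split hz
    exact h4 (pre l z) (z :: B) hB h List.mem_cons_self
  · obtain ⟨B, hB⟩ := MWK.mem_split hc
    exact h3 (pre l c) (c :: B) hB h List.mem_cons_self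

theorem Rl.of_pre {l : List ℕ} {c d : ℕ} (hc : c ∈ l) (hd : d ∈ l)
    (h : (pre l d).count c = l.count c) : Rl l c d := by
  refine ⟨hc, hd, ?_, ?_⟩
  · intro e
    subst e
    have h1 : (pre l c).count c = 0 := List.count_eq_zero.2 (MWK.not_mem_pre l c)
    have h2 : 0 < l.count c := List.count_pos_iff.2 hc
    omega
  · intro u v e hu hv
    have h1 : pre l d = pre u d := by rw [e, MWK.pre_append_mem hu]
    have h2 := MWK.count_pre_le u c d
    have h3 : 0 < v.count c := List.count_pos_iff.2 hv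
    rw [h1] at h
    rw [e, List.count_append] at h
    omega

theorem Rl.of_not {l : List ℕ} {c d : ℕ} (hd : d ∈ l) (hcd : c ≠ d) (h1 : l.count c = 1)
    (h : (pre l c).count d = 0) : Rl l c d := by
  have hc : c ∈ l := List.count_pos_iff.1 (by omega)
  apply Rl.of_pre hc hd
  have h2 : c ∈ pre l d := by
    rcases MWK.pre_total hc hcd with h2 | h2
    · exact h2
    · exact absurd h2 (List.count_eq_zero.1 h)
  have h3 : 0 < (pre l d).count c := List.count_pos_iff.2 h2
  have h4 := MWK.count_pre_le l c d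
  omega

theorem pre_cons_ne {c q : ℕ} (h : c ≠ q) (l : List ℕ) : pre (c :: l) q = c :: pre l q := by
  unfold MWK.pre
  simp [h]

theorem pre_filter {p : ℕ → Bool} {q : ℕ} (hq : p q = true) : ∀ l : List ℕ,
    pre (l.filter p) q = (pre l q).filter p
  | [] => rfl
  | c :: l => by
    by_cases hc : c = q
    · subst hc
      rw [List.filter_cons_of_pos hq, MWK.pre_cons_self, MWK.pre_cons_self]
      rfl
    · by_cases hp : p c = true
      · rw [List.filter_cons_of_pos hp, pre_cons_ne hc, pre_cons_ne hc,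
          List.filter_cons_of_pos hp, pre_filter hq l]
      · rw [List.filter_cons_of_neg hp, pre_cons_ne hc, List.filter_cons_of_neg hp,
          pre_filter hq l]

theorem cnt_filter {p : ℕ → Bool} {c : ℕ} (hc : p c = true) (l : List ℕ) :
    (l.filter p).count c = l.count c := List.count_filter hc

theorem cnt_pre_filter {p : ℕ → Bool} {c d : ℕ} (hc : p c = true) (hd : p d = true) (l : List ℕ) :
    (pre (l.filter p) d).count c = (pre l d).count c := by
  rw [pre_filter hd, cnt_filter hc]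

theorem cnt3 {w A B C : List ℕ} {a b c : ℕ} (hw : w = A ++ a :: (B ++ b :: C)) (ha : c ≠ a)
    (hb : c ≠ b) : w.count c = A.count c + B.count c + C.count c := by
  rw [hw]
  simp [List.count_append, List.count_cons, ha.symm, hb.symm]
  omega

theorem fm_congr {f g : ℕ → List ℕ} : ∀ {l : List ℕ}, (∀ a ∈ l, f a = g a) →
    l.flatMap f = l.flatMap g
  | [], _ => rfl
  | a :: l, h => by
    rw [List.flatMap_cons, List.flatMap_cons, h a List.mem_cons_self,
      fm_congr (fun b hb => h b (List.mem_cons_of_mem _ hb))]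

theorem mem_nl {ν : Nm} {m c : ℕ} : c ∈ nl ν m ↔ c = ν.x ∨ c = ν.y ∨ c = ν.a ∨ c = ν.b ∨
    (∃ i ≤ m, ν.S i = c) ∨ (∃ i ≤ m, ν.L i = c) ∨ (∃ i < m, ν.C i = c) := by
  simp [nl, Nat.lt_succ_iff]

/-- first, middle and last part of a word, with the counts of a letter -/
theorem noa_core (hS : SrtStmt) {ν : Nm} {τ : List ℕ} {m nc : ℕ} (hN : Ns ν m) (hT : Tau τ m)
    (hm : m ≤ nc) {w : List ℕ} (hw : WC ν m nc w) (ht : WT ν τ m w) :
    ∃ (i j : ℕ) (e f : ℕ → ℕ), 1 ≤ i ∧ 1 ≤ j ∧ (∀ r < m, 2 ≤ e r) ∧ (∀ r ≤ m, 1 ≤ f r) ∧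
      ∃ P : List ℕ, ((nn w ν.x ν.y = 1 ∧ P = [ν.x, ν.y]) ∨ (nn w ν.x ν.y = 0 ∧ P = [ν.y, ν.x])) ∧
        w.filter (fun c => decide (c ∈ nl ν m)) = P ++ ν.a :: (List.replicate i ν.x ++
          ((List.range m).flatMap (fun r => ν.L r :: List.replicate (e r) (ν.C r)) ++
            ν.L m :: (List.replicate j ν.y ++ ν.b ::
              τ.flatMap (fun r => ν.S r :: List.replicate (f r) (ν.L r))))) := by
  classical
  have hab : ν.a ≠ ν.b := by
    intro e
    have := hN
    unfold Ns at this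
    rw [e] at this
    simp at this
  have haS : ∀ i ≤ m, ν.S i ≠ ν.a := by
    intro i hi e
    have h1 := hN
    unfold Ns at h1
    rw [List.nodup_cons] at h1
    apply h1.1
    rw [← e]
    apply List.mem_cons_of_mem
    exact List.mem_map_of_mem (List.mem_range.2 (by omega))
  have hbS : ∀ i ≤ m, ν.S i ≠ ν.b := by
    intro i hi e
    have h1 := hN
    unfold Ns at h1
    rw [List.nodup_cons, List.nodup_cons] at h1
    apply h1.2.1
    rw [← e]
    exact List.mem_map_of_mem (List.mem_range.2 (by omega))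
  have hbw : ν.b ∈ w := List.count_pos_iff.1 (by rw [hw.sb]; exact Nat.one_pos)
  have haw : ν.a ∈ w := List.count_pos_iff.1 (by rw [hw.sa]; exact Nat.one_pos)
  have hapb : ν.a ∈ pre w ν.b := by
    rcases MWK.pre_total haw hab with h | h
    · exact h
    · exact absurd h (List.count_eq_zero.1 hw.ob)
  obtain ⟨W1, hW1⟩ := MWK.pre_mono hapb
  obtain ⟨W2, hW2⟩ := MWK.mem_split hbw
  obtain ⟨W0, hW0⟩ : ∃ W0, W0 = pre w ν.a := ⟨_, rfl⟩
  rw [← hW0] at hW1
  have hww : w = W0 ++ ν.a :: (W1 ++ ν.b :: W2) := by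
    rw [hW1] at hW2
    rw [hW2]
    simp
  have ha0 : ν.a ∉ W0 := by rw [hW0]; exact MWK.not_mem_pre _ _
  have hb01 : ν.b ∉ W0 ++ ν.a :: W1 := by rw [← hW1]; exact MWK.not_mem_pre _ _
  have hb0 : ν.b ∉ W0 := fun h => hb01 (List.mem_append_left _ h)
  have hb1 : ν.b ∉ W1 := fun h => hb01 (List.mem_append_right _ (List.mem_cons_of_mem _ h))
  have hca : w.count ν.a = W0.count ν.a + 1 + W1.count ν.a + W2.count ν.a := by
    rw [hww]
    simp [List.count_append, List.count_cons, hab.symm]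
    omega
  have hcb : w.count ν.b = W0.count ν.b + W1.count ν.b + 1 + W2.count ν.b := by
    rw [hww]
    simp [List.count_append, List.count_cons, hab]
    omega
  have ha1 : ν.a ∉ W1 := List.count_eq_zero.1 (by have := hw.sa; omega)
  have ha2 : ν.a ∉ W2 := List.count_eq_zero.1 (by have := hw.sa; omega)
  have hb2 : ν.b ∉ W2 := List.count_eq_zero.1 (by have := hw.sb; omega)
  have cnt : ∀ c, c ≠ ν.a → c ≠ ν.b → w.count c = W0.count c + W1.count c + W2.count c :=
    fun c h1 h2 => cnt3 hww h1 h2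
  have nna : ∀ c, nn w c ν.a = W0.count c := by
    intro c
    unfold nn
    rw [← hW0]
  have nnb : ∀ c, c ≠ ν.a → nn w c ν.b = W0.count c + W1.count c := by
    intro c h1
    unfold nn
    rw [hW1]
    simp [List.count_append, List.count_cons, h1.symm]
  have nn1 : ∀ c d, c ≠ ν.a → d ≠ ν.a → W0.count d = 0 → d ∈ W1 →
      nn w c d = W0.count c + (pre W1 d).count c := by
    intro c d h1 h2 h3 h4
    unfold nn
    rw [hww, MWK.pre_append (List.count_eq_zero.1 h3), pre_cons_ne h2.symm,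
      MWK.pre_append_mem h4]
    simp [List.count_append, List.count_cons, h1.symm]
  have nn2 : ∀ c d, c ≠ ν.a → c ≠ ν.b → d ≠ ν.a → d ≠ ν.b → W0.count d = 0 → W1.count d = 0 →
      nn w c d = W0.count c + W1.count c + (pre W2 d).count c := by
    intro c d h1 h2 h3 h4 h5 h6
    unfold nn
    rw [hww, MWK.pre_append (List.count_eq_zero.1 h5), pre_cons_ne h3.symm,
      MWK.pre_append (List.count_eq_zero.1 h6), pre_cons_ne h4.symm]
    simp [List.count_append, List.count_cons, h1.symm, h2.symm]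
    omega
  -- letters
  have nea : ∀ c, 2 ≤ w.count c → c ≠ ν.a := by
    intro c h e
    subst e
    have := hw.sa
    omega
  have neb : ∀ c, 2 ≤ w.count c → c ≠ ν.b := by
    intro c h e
    subst e
    have := hw.sb
    omega
  have hx : ν.x ≠ ν.a ∧ ν.x ≠ ν.b ∧ W0.count ν.x = 1 ∧ 1 ≤ W1.count ν.x ∧ W2.count ν.x = 0 := by
    have h1 := nea _ hw.x2
    have h2 := neb _ hw.x2
    have h3 := nna ν.x
    have h4 := nnb ν.x h1
    have h5 := cnt ν.x h1 h2
    have h6 := hw.x2
    have h7 := hw.xa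
    have h8 := hw.xb
    refine ⟨h1, h2, ?_, ?_, ?_⟩ <;> omega
  have hy : ν.y ≠ ν.a ∧ ν.y ≠ ν.b ∧ W0.count ν.y = 1 ∧ 1 ≤ W1.count ν.y ∧ W2.count ν.y = 0 := by
    have h1 := nea _ hw.y2
    have h2 := neb _ hw.y2
    have h3 := nna ν.y
    have h4 := nnb ν.y h1
    have h5 := cnt ν.y h1 h2
    have h6 := hw.y2
    have h7 := hw.ya
    have h8 := hw.yb
    refine ⟨h1, h2, ?_, ?_, ?_⟩ <;> omega
  have hL : ∀ i ≤ m, ν.L i ≠ ν.a ∧ ν.L i ≠ ν.b ∧ W0.count (ν.L i) = 0 ∧ W1.count (ν.L i) = 1 ∧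
      1 ≤ W2.count (ν.L i) := by
    intro i hi
    have h6 := hw.l2 i (by omega)
    have h1 := nea _ h6
    have h2 := neb _ h6
    have h3 := nna (ν.L i)
    have h4 := nnb (ν.L i) h1
    have h5 := cnt (ν.L i) h1 h2
    have h7 := hw.l0 i (by omega)
    have h8 := hw.lb i (by omega)
    refine ⟨h1, h2, ?_, ?_, ?_⟩ <;> omega
  have hC : ∀ i < m, ν.C i ≠ ν.a ∧ ν.C i ≠ ν.b ∧ W0.count (ν.C i) = 0 ∧ 2 ≤ W1.count (ν.C i) ∧
      W2.count (ν.C i) = 0 := by
    intro i hi
    have h6 := hw.c2 i (by omega)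
    have h1 := nea _ h6
    have h2 := neb _ h6
    have h3 := nna (ν.C i)
    have h4 := nnb (ν.C i) h1
    have h5 := cnt (ν.C i) h1 h2
    have h7 := hw.c0 i (by omega)
    have h8 := hw.cb i (by omega)
    refine ⟨h1, h2, ?_, ?_, ?_⟩ <;> omega
  have hSS : ∀ i ≤ m, W0.count (ν.S i) = 0 ∧ W1.count (ν.S i) = 0 ∧ W2.count (ν.S i) = 1 := by
    intro i hi
    have h6 := ht.ss i hi
    have h4 := nnb (ν.S i) (haS i hi)
    have h5 := cnt (ν.S i) (haS i hi) (hbS i hi)
    have h7 := ht.oS i hi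
    refine ⟨?_, ?_, ?_⟩ <;> omega
  obtain ⟨p, hp⟩ : ∃ p : ℕ → Bool, p = fun c => decide (c ∈ nl ν m) := ⟨_, rfl⟩
  rw [← hp]
  have pm : ∀ c, p c = true ↔ c ∈ nl ν m := by
    intro c
    rw [hp]
    simp
  have px : p ν.x = true := (pm _).2 (mem_nl.2 (Or.inl rfl))
  have py : p ν.y = true := (pm _).2 (mem_nl.2 (Or.inr (Or.inl rfl)))
  have pa : p ν.a = true := (pm _).2 (mem_nl.2 (Or.inr (Or.inr (Or.inl rfl))))
  have pb : p ν.b = true := (pm _).2 (mem_nl.2 (Or.inr (Or.inr (Or.inr (Or.inl rfl)))))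
  have pS : ∀ i ≤ m, p (ν.S i) = true := fun i hi =>
    (pm _).2 (mem_nl.2 (Or.inr (Or.inr (Or.inr (Or.inr (Or.inl ⟨i, hi, rfl⟩))))))
  have pL : ∀ i ≤ m, p (ν.L i) = true := fun i hi =>
    (pm _).2 (mem_nl.2 (Or.inr (Or.inr (Or.inr (Or.inr (Or.inr (Or.inl ⟨i, hi, rfl⟩)))))))
  have pC : ∀ i < m, p (ν.C i) = true := fun i hi =>
    (pm _).2 (mem_nl.2 (Or.inr (Or.inr (Or.inr (Or.inr (Or.inr (Or.inr ⟨i, hi, rfl⟩)))))))
  -- first part
  have e0 : (nn w ν.x ν.y = 1 ∧ W0.filter p = [ν.x, ν.y]) ∨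
      (nn w ν.x ν.y = 0 ∧ W0.filter p = [ν.y, ν.x]) := by
    have hyW : ν.y ∈ W0 := List.count_pos_iff.1 (by omega)
    have hnn : nn w ν.x ν.y = (pre W0 ν.y).count ν.x := by
      unfold nn
      rw [hww, MWK.pre_append_mem hyW]
    have hcx : (W0.filter p).count ν.x = 1 := by rw [cnt_filter px]; exact hx.2.2.1
    have hcy : (W0.filter p).count ν.y = 1 := by rw [cnt_filter py]; exact hy.2.2.1
    have hmx : ν.x ∈ W0.filter p := List.count_pos_iff.1 (by omega)
    have hmy : ν.y ∈ W0.filter p := List.count_pos_iff.1 (by omega)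
    have hle := MWK.count_pre_le W0 ν.x ν.y
    have hsub : ∀ c ∈ W0.filter p, c = ν.x ∨ c = ν.y := by
      intro c hc
      rw [List.mem_filter, pm, mem_nl] at hc
      obtain ⟨hc0, hc1⟩ := hc
      rcases hc1 with h | h | h | h | ⟨i, hi, h⟩ | ⟨i, hi, h⟩ | ⟨i, hi, h⟩
      · exact Or.inl h
      · exact Or.inr h
      · exact absurd (h ▸ hc0) ha0
      · exact absurd (h ▸ hc0) hb0
      · exact absurd (h ▸ hc0) (List.count_eq_zero.1 (hSS i hi).1)
      · exact absurd (h ▸ hc0) (List.count_eq_zero.1 (hL i hi).2.2.1)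
      · exact absurd (h ▸ hc0) (List.count_eq_zero.1 (hC i hi).2.2.1)
    have hxy : ν.x ≠ ν.y := by
      intro e
      have h1 := hw.yl 0 (by omega)
      have h2 := hw.xl 0 (by omega)
      have h3 := hw.x2
      rw [e] at h2 h3
      omega
    have h01 : nn w ν.x ν.y = 1 ∨ nn w ν.x ν.y = 0 := by
      have := hx.2.2.1
      omega
    rcases h01 with h | h
    · left
      refine ⟨h, ?_⟩
      have hR : Rl (W0.filter p) ν.x ν.y := by
        apply Rl.of_pre hmx hmy
        rw [cnt_pre_filter px py, hcx]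
        omega
      have h1 := hS [ν.x, ν.y] (W0.filter p) (by simp [hxy]) (fun c hc => by
        rcases hsub c hc with h2 | h2 <;> simp [h2]) (by
          simp only [List.pairwise_cons, List.mem_singleton, forall_eq]
          exact ⟨hR.2.2.2, by simp⟩)
      rw [h1]
      simp only [List.flatMap_cons, List.flatMap_nil, hcx, hcy]
      rfl
    · right
      refine ⟨h, ?_⟩
      have hR : Rl (W0.filter p) ν.y ν.x := by
        apply Rl.of_not hmx hxy.symm hcy
        rw [cnt_pre_filter px py]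
        omega
      have h1 := hS [ν.y, ν.x] (W0.filter p) (by simp [hxy.symm]) (fun c hc => by
        rcases hsub c hc with h2 | h2 <;> simp [h2]) (by
          simp only [List.pairwise_cons, List.mem_singleton, forall_eq]
          exact ⟨hR.2.2.2, by simp⟩)
      rw [h1]
      simp only [List.flatMap_cons, List.flatMap_nil, hcx, hcy]
      rfl
  -- middle part
  have c1x : (W1.filter p).count ν.x = W1.count ν.x := cnt_filter px W1
  have c1y : (W1.filter p).count ν.y = W1.count ν.y := cnt_filter py W1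
  have c1L : ∀ i ≤ m, (W1.filter p).count (ν.L i) = 1 := fun i hi => by
    rw [cnt_filter (pL i hi)]; exact (hL i hi).2.2.2.1
  have c1C : ∀ i < m, (W1.filter p).count (ν.C i) = W1.count (ν.C i) := fun i hi =>
    cnt_filter (pC i hi) W1
  have m1x : ν.x ∈ W1.filter p := List.count_pos_iff.1 (by have := hx.2.2.2.1; omega)
  have m1y : ν.y ∈ W1.filter p := List.count_pos_iff.1 (by have := hy.2.2.2.1; omega)
  have m1L : ∀ i ≤ m, ν.L i ∈ W1.filter p := fun i hi =>
    List.count_pos_iff.1 (by have := c1L i hi; omega)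
  have m1C : ∀ i < m, ν.C i ∈ W1.filter p := fun i hi =>
    List.count_pos_iff.1 (by have := c1C i hi; have := (hC i hi).2.2.2.1; omega)
  have w1L : ∀ i ≤ m, ν.L i ∈ W1 := fun i hi => (List.mem_filter.1 (m1L i hi)).1
  have rxL : Rl (W1.filter p) ν.x (ν.L 0) := by
    apply Rl.of_pre m1x (m1L 0 (by omega))
    rw [cnt_pre_filter px (pL 0 (by omega)), c1x]
    have h1 := nn1 ν.x (ν.L 0) hx.1 (hL 0 (by omega)).1 (hL 0 (by omega)).2.2.1 (w1L 0 (by omega))
    have h2 := hw.xl 0 (by omega)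
    have h3 := cnt ν.x hx.1 hx.2.1
    have h4 := hx.2.2.2.2
    omega
  have rLC : ∀ i < m, Rl (W1.filter p) (ν.L i) (ν.C i) := by
    intro i hi
    apply Rl.of_not (m1C i hi) ?_ (c1L i (by omega))
    · rw [cnt_pre_filter (pC i hi) (pL i (by omega))]
      have h1 := nn1 (ν.C i) (ν.L i) (hC i hi).1 (hL i (by omega)).1 (hL i (by omega)).2.2.1
        (w1L i (by omega))
      have h2 := hw.cl0 i (by omega) i le_rfl
      omega
    · intro e
      have h1 := (hL i (by omega)).2.2.2.1
      have h2 := (hC i hi).2.2.2.1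
      rw [e] at h1
      omega
  have rCL : ∀ i < m, Rl (W1.filter p) (ν.C i) (ν.L (i + 1)) := by
    intro i hi
    apply Rl.of_pre (m1C i hi) (m1L (i + 1) (by omega))
    rw [cnt_pre_filter (pC i hi) (pL (i + 1) (by omega)), c1C i hi]
    have h1 := nn1 (ν.C i) (ν.L (i + 1)) (hC i hi).1 (hL (i + 1) (by omega)).1
      (hL (i + 1) (by omega)).2.2.1 (w1L (i + 1) (by omega))
    have h2 := hw.cl1 i (by omega) (i + 1) (by omega) (by omega)
    have h3 := cnt (ν.C i) (hC i hi).1 (hC i hi).2.1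
    have h4 := (hC i hi).2.2.2.2
    omega
  have rLy : Rl (W1.filter p) (ν.L m) ν.y := by
    apply Rl.of_not m1y ?_ (c1L m le_rfl)
    · rw [cnt_pre_filter py (pL m le_rfl)]
      have h1 := nn1 ν.y (ν.L m) hy.1 (hL m le_rfl).1 (hL m le_rfl).2.2.1 (w1L m le_rfl)
      have h2 := hw.yl m (by omega)
      have h3 := hy.2.2.1
      omega
    · intro e
      have h1 := (hL m le_rfl).2.2.1
      have h2 := hy.2.2.1
      rw [e] at h1
      omega
  have hpw : ∀ k ≤ m, (ν.x :: ((List.range k).flatMap (fun i => [ν.L i, ν.C i]) ++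
      [ν.L k])).Pairwise (Rl (W1.filter p)) ∧
      ∀ c ∈ ν.x :: (List.range k).flatMap (fun i => [ν.L i, ν.C i]),
        Rl (W1.filter p) c (ν.L k) := by
    intro k
    induction k with
    | zero =>
      intro _
      simp only [List.range_zero, List.flatMap_nil, List.nil_append, List.mem_cons,
        List.not_mem_nil, or_false, forall_eq]
      refine ⟨?_, rxL⟩
      simp only [List.pairwise_cons, List.mem_singleton, forall_eq]
      exact ⟨rxL, by simp⟩
    | succ k ih =>
      intro hk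
      obtain ⟨h1, h2⟩ := ih (by omega)
      have hkC : ∀ c ∈ ν.x :: ((List.range k).flatMap (fun i => [ν.L i, ν.C i]) ++ [ν.L k]),
          Rl (W1.filter p) c (ν.C k) := by
        intro c hc
        have h3 : c ∈ ν.x :: (List.range k).flatMap (fun i => [ν.L i, ν.C i]) ∨ c = ν.L k := by
          simp only [List.mem_cons, List.mem_append, List.not_mem_nil, or_false] at hc ⊢
          tauto
        rcases h3 with h3 | h3
        · exact (h2 c h3).tr (rLC k (by omega))
        · rw [h3]; exact rLC k (by omega)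
      have e1 : ν.x :: (List.range (k + 1)).flatMap (fun i => [ν.L i, ν.C i]) =
          (ν.x :: ((List.range k).flatMap (fun i => [ν.L i, ν.C i]) ++ [ν.L k])) ++ [ν.C k] := by
        rw [List.range_succ, List.flatMap_append]
        simp
      have e2 : ν.x :: ((List.range (k + 1)).flatMap (fun i => [ν.L i, ν.C i]) ++
          [ν.L (k + 1)]) = (ν.x :: (List.range (k + 1)).flatMap (fun i => [ν.L i, ν.C i])) ++
            [ν.L (k + 1)] := by simp
      have h4 : ∀ c ∈ ν.x :: (List.range (k + 1)).flatMap (fun i => [ν.L i, ν.C i]),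
          Rl (W1.filter p) c (ν.L (k + 1)) := by
        intro c hc
        rw [e1, List.mem_append, List.mem_singleton] at hc
        rcases hc with hc | hc
        · exact (hkC c hc).tr (rCL k (by omega))
        · rw [hc]; exact rCL k (by omega)
      refine ⟨?_, h4⟩
      rw [e2, List.pairwise_append]
      refine ⟨?_, by simp, ?_⟩
      · rw [e1, List.pairwise_append]
        refine ⟨h1, by simp, ?_⟩
        intro c hc d hd
        rw [List.mem_singleton] at hd
        rw [hd]
        exact hkC c hc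
      · intro c hc d hd
        rw [List.mem_singleton] at hd
        rw [hd]
        exact h4 c hc
  obtain ⟨hpw1, hpw2⟩ := hpw m le_rfl
  obtain ⟨M1, hM1⟩ : ∃ M1, M1 = (ν.x :: ((List.range m).flatMap (fun i => [ν.L i, ν.C i]) ++
      [ν.L m])) ++ [ν.y] := ⟨_, rfl⟩
  have hpM1 : M1.Pairwise (Rl (W1.filter p)) := by
    rw [hM1, List.pairwise_append]
    refine ⟨hpw1, by simp, ?_⟩
    intro c hc d hd
    rw [List.mem_singleton] at hd
    rw [hd]
    have h3 : c ∈ ν.x :: (List.range m).flatMap (fun i => [ν.L i, ν.C i]) ∨ c = ν.L m := by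
      simp only [List.mem_cons, List.mem_append, List.not_mem_nil, or_false] at hc ⊢
      tauto
    rcases h3 with h3 | h3
    · exact (hpw2 c h3).tr rLy
    · rw [h3]; exact rLy
  have hsub1 : ∀ c ∈ W1.filter p, c ∈ M1 := by
    intro c hc
    rw [List.mem_filter, pm, mem_nl] at hc
    obtain ⟨hc0, hc1⟩ := hc
    rw [hM1]
    simp only [List.mem_append, List.mem_cons, List.mem_flatMap, List.mem_range, List.not_mem_nil,
      or_false]
    rcases hc1 with h | h | h | h | ⟨i, hi, h⟩ | ⟨i, hi, h⟩ | ⟨i, hi, h⟩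
    · exact Or.inl (Or.inl h)
    · exact Or.inr h
    · exact absurd (h ▸ hc0) ha1
    · exact absurd (h ▸ hc0) hb1
    · exact absurd (h ▸ hc0) (List.count_eq_zero.1 (hSS i hi).2.1)
    · rcases Nat.lt_or_ge i m with h2 | h2
      · exact Or.inl (Or.inr (Or.inl ⟨i, h2, Or.inl h.symm⟩))
      · have : i = m := by omega
        subst this
        exact Or.inl (Or.inr (Or.inr h.symm))
    · exact Or.inl (Or.inr (Or.inl ⟨i, hi, Or.inr h.symm⟩))
  have e1 : W1.filter p = List.replicate (W1.count ν.x) ν.x ++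
      ((List.range m).flatMap (fun r => ν.L r :: List.replicate (W1.count (ν.C r)) (ν.C r)) ++
        ν.L m :: List.replicate (W1.count ν.y) ν.y) := by
    have h1 := hS M1 (W1.filter p) (hpM1.imp (fun h => h.2.2.1)) hsub1
      (hpM1.imp (fun h => h.2.2.2))
    rw [h1, hM1]
    rw [List.flatMap_append, List.flatMap_cons, List.flatMap_append, List.flatMap_assoc]
    rw [fm_congr (l := List.range m) (g := fun r => ν.L r ::
      List.replicate (W1.count (ν.C r)) (ν.C r))]
    · simp only [List.flatMap_cons, List.flatMap_nil, c1x, c1y, c1L m le_rfl]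
      simp
    · intro i hi
      rw [List.mem_range] at hi
      simp only [List.flatMap_cons, List.flatMap_nil, c1L i (by omega), c1C i hi]
      simp
  -- last part
  have c2S : ∀ i ≤ m, (W2.filter p).count (ν.S i) = 1 := fun i hi => by
    rw [cnt_filter (pS i hi)]; exact (hSS i hi).2.2
  have c2L : ∀ i ≤ m, (W2.filter p).count (ν.L i) = W2.count (ν.L i) := fun i hi =>
    cnt_filter (pL i hi) W2
  have m2S : ∀ i ≤ m, ν.S i ∈ W2.filter p := fun i hi =>
    List.count_pos_iff.1 (by have := c2S i hi; omega)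
  have m2L : ∀ i ≤ m, ν.L i ∈ W2.filter p := fun i hi =>
    List.count_pos_iff.1 (by have := c2L i hi; have := (hL i hi).2.2.2.2; omega)
  have rSL : ∀ i ≤ m, Rl (W2.filter p) (ν.S i) (ν.L i) := by
    intro i hi
    apply Rl.of_not (m2L i hi) ?_ (c2S i hi)
    · rw [cnt_pre_filter (pL i hi) (pS i hi)]
      have h1 := nn2 (ν.L i) (ν.S i) (hL i hi).1 (hL i hi).2.1 (haS i hi) (hbS i hi)
        (hSS i hi).1 (hSS i hi).2.1
      have h2 := ht.lt i hi
      have h3 := (hL i hi).2.2.1
      have h4 := (hL i hi).2.2.2.1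
      omega
    · intro e
      have h1 := (hL i hi).2.2.2.1
      have h2 := (hSS i hi).2.1
      rw [e] at h2
      omega
  have rLS : ∀ i j, i ≤ m → j ≤ m → i ∈ pre τ j → Rl (W2.filter p) (ν.L i) (ν.S j) := by
    intro i j hi hj hij
    apply Rl.of_pre (m2L i hi) (m2S j hj)
    rw [cnt_pre_filter (pL i hi) (pS j hj), c2L i hi]
    have h1 := nn2 (ν.L i) (ν.S j) (hL i hi).1 (hL i hi).2.1 (haS j hj) (hbS j hj)
      (hSS j hj).1 (hSS j hj).2.1
    have h2 := ht.lT i j hi hj hij
    have h3 := cnt (ν.L i) (hL i hi).1 (hL i hi).2.1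
    omega
  have hτ : τ.Pairwise (fun i j => i ∈ pre τ j) := by
    have : ∀ A B : List ℕ, A ++ B = τ → B.Pairwise (fun i j => i ∈ pre τ j) := by
      intro A B
      induction B generalizing A with
      | nil => intro _; exact List.Pairwise.nil
      | cons i B ih =>
        intro h
        rw [List.pairwise_cons]
        refine ⟨?_, ih (A ++ [i]) (by simpa using h)⟩
        intro j hj
        have hnd := hT.1
        rw [← h] at hnd
        have h1 : j ∉ A ++ [i] := by
          intro hjA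
          have h2 : A ++ i :: B = (A ++ [i]) ++ B := by simp
          rw [h2, List.nodup_append] at hnd
          exact hnd.2.2 j hjA j hj rfl
        have h2 : τ = (A ++ [i]) ++ B := by rw [← h]; simp
        rw [h2, MWK.pre_append h1]
        simp
    exact this [] τ rfl
  obtain ⟨M2, hM2⟩ : ∃ M2, M2 = τ.flatMap (fun i => [ν.S i, ν.L i]) := ⟨_, rfl⟩
  have hpM2 : M2.Pairwise (Rl (W2.filter p)) := by
    rw [hM2, List.pairwise_flatMap]
    constructor
    · intro i hi
      have hi' := (hT.2 i).1 hi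
      simp only [List.pairwise_cons, List.mem_singleton, forall_eq]
      exact ⟨rSL i hi', by simp⟩
    · apply List.Pairwise.imp_of_mem ?_ hτ
      intro i j hi hj hij
      have hi' := (hT.2 i).1 hi
      have hj' := (hT.2 j).1 hj
      have h1 := rLS i j hi' hj' hij
      have h2 := rSL i hi'
      have h3 := rSL j hj'
      intro c hc d hd
      simp only [List.mem_cons, List.not_mem_nil, or_false] at hc hd
      rcases hc with rfl | rfl <;> rcases hd with rfl | rfl
      · exact h2.tr h1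
      · exact (h2.tr h1).tr h3
      · exact h1
      · exact h1.tr h3
  have hsub2 : ∀ c ∈ W2.filter p, c ∈ M2 := by
    intro c hc
    rw [List.mem_filter, pm, mem_nl] at hc
    obtain ⟨hc0, hc1⟩ := hc
    rw [hM2]
    simp only [List.mem_cons, List.mem_flatMap, List.not_mem_nil, or_false]
    rcases hc1 with h | h | h | h | ⟨i, hi, h⟩ | ⟨i, hi, h⟩ | ⟨i, hi, h⟩
    · exact absurd (h ▸ hc0) (List.count_eq_zero.1 hx.2.2.2.2)
    · exact absurd (h ▸ hc0) (List.count_eq_zero.1 hy.2.2.2.2)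
    · exact absurd (h ▸ hc0) ha2
    · exact absurd (h ▸ hc0) hb2
    · exact ⟨i, (hT.2 i).2 hi, Or.inl h.symm⟩
    · exact ⟨i, (hT.2 i).2 hi, Or.inr h.symm⟩
    · exact absurd (h ▸ hc0) (List.count_eq_zero.1 (hC i hi).2.2.2.2)
  have e2 : W2.filter p = τ.flatMap (fun r => ν.S r ::
      List.replicate (W2.count (ν.L r)) (ν.L r)) := by
    have h1 := hS M2 (W2.filter p) (hpM2.imp (fun h => h.2.2.1)) hsub2
      (hpM2.imp (fun h => h.2.2.2))
    rw [h1, hM2, List.flatMap_assoc]
    apply fm_congr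
    intro i hi
    have hi' := (hT.2 i).1 hi
    simp only [List.flatMap_cons, List.flatMap_nil, c2S i hi', c2L i hi']
    simp
  refine ⟨W1.count ν.x, W1.count ν.y, fun r => W1.count (ν.C r), fun r => W2.count (ν.L r),
    hx.2.2.2.1, hy.2.2.2.1, fun r hr => (hC r hr).2.2.2.1, fun r hr => (hL r hr).2.2.2.2,
    W0.filter p, e0, ?_⟩
  have e3 : w.filter p = W0.filter p ++ ν.a :: (W1.filter p ++ ν.b :: W2.filter p) := by
    rw [hww, List.filter_append, List.filter_cons_of_pos pa, List.filter_append,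
      List.filter_cons_of_pos pb]
  rw [e3, e1, e2]
  simp [List.append_assoc]

/-- **NOA** -/
theorem noa (hS : SrtStmt) : NoaStmt :=
  fun _ _ _ _ hN hT hm _ hw ht => noa_core hS hN hT hm hw ht

end Pool.Agent.Helper34_MWGN
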